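import Pool.Agent.D0H48.Cl.Const

/-!
# The central limit theorem for the error term of the divisor problem along geometric progressions

`Δ(x) = ∑_{n ≤ x} d(n) - x (log x + 2 γ - 1)` is the function `Δ_2` of the Piltz divisor problem.  Let `a_n` be real with
`a_{n+1} ≥ a_n + δ`, `δ > 0`, let `b_n > 0` be nondecreasing and `x_n = b_n α ^ (a_n)`, for example `x_n = α ^ n`.  If
`α > 1` is random with any absolutely continuous law, then `N ^ (-1/2) ∑_{n < N} Δ(x_n) / x_n ^ (1/4)` converges in law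
to the normal distribution with mean zero and variance `∑ d(m)² / (4 π² m ^ (3/2))`.

The proof is described in the file `Pool.Agent.Results.MP_fb29e9_nt.CentralLimitAlongPowers`, the same statement for
the circle problem.
-/

set_option autoImplicit false

open MeasureTheory Filter Topology Set ProbabilityTheory

namespace Pool.Agent.Results.MP_bc6037_nt.CentralLimitAlongPowers

/-- the variance: `∑ d(m)² / (4 π² m ^ (3/2))` over `m ≥ 1` -/
noncomputable def V : ℝ := ∑' m : ℕ, (m.divisors.card : ℝ) ^ 2 / (4 * Real.pi ^ 2 * (m : ℝ) ^ (3 / 2 : ℝ))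

theorem result (Δ : ℝ → ℝ)
    (hΔ : ∀ x : ℝ, Δ x = ∑ n ∈ Finset.Icc 1 ⌊x⌋₊, (n.divisors.card : ℝ) - x * (Real.log x + 2 * Real.eulerMascheroniConstant - 1))
    (a b : ℕ → ℝ) (δ : ℝ) (hδ : 0 < δ) (ha : ∀ n, a n + δ ≤ a (n + 1)) (hb : ∀ n, 0 < b n) (hmono : Monotone b) :
    0 < V ∧ ∀ (ν : Measure ℝ) [IsProbabilityMeasure ν], ν ≪ volume → ν (Iic 1) = 0 → ∀ x : ℝ,
      Tendsto (fun N : ℕ => ν {α : ℝ | ∑ n ∈ Finset.range N, Δ (b n * α ^ (a n)) / (b n * α ^ (a n)) ^ (1 / 4 : ℝ) ≤ x * √(N : ℝ)}) atTop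
        (𝓝 (gaussianReal 0 (Real.toNNReal V) (Iic x))) := by
  have hΔD : ∀ x : ℝ, Δ x = Pool.Agent.H387R2.Vor.Del x := by
    intro x
    rw [hΔ]
    unfold Pool.Agent.H387R2.Vor.Del
    rw [show x * (Real.log x + 2 * Real.eulerMascheroniConstant - 1) =
      x * Real.log x + (2 * Real.eulerMascheroniConstant - 1) * x by ring, ← sub_sub]
    rfl
  have hE : ∀ x : ℝ, 0 < x → Pool.Agent.H383.Div.E2 (2 * √x) = Δ x / x ^ (1 / 4 : ℝ) := by
    intro x hx
    unfold Pool.Agent.H383.Div.E2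
    rw [mul_div_cancel_left₀ _ (by norm_num : (2:ℝ) ≠ 0)]
    unfold Pool.Agent.H387R2.Vor.Ed
    rw [Real.sq_sqrt hx.le, hΔD]
    congr 1
    rw [Real.sqrt_eq_rpow, Real.sqrt_eq_rpow, ← Real.rpow_mul hx.le]
    norm_num
  have hb' : ∀ n, 0 < 2 * √(b n) := fun n => mul_pos two_pos (Real.sqrt_pos.2 (hb n))
  have hmono' : Monotone fun n => 2 * √(b n) := fun i j hij =>
    mul_le_mul_of_nonneg_left (Real.sqrt_le_sqrt (hmono hij)) two_pos.le
  have ha' : ∀ n, (fun n => a n / 2) n + δ / 2 ≤ (fun n => a n / 2) (n + 1) := fun n => by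
    have := ha n
    show a n / 2 + δ / 2 ≤ a (n + 1) / 2
    linarith
  have hV : V = Pool.Agent.D0H48.Cl.VV Pool.Agent.H383.Div.ad := Pool.Agent.D0H48.Cl.VV_div.symm
  rw [hV]
  refine ⟨Pool.Agent.D0H48.Cl.VV_div_pos, fun ν _ hν hν1 x => ?_⟩
  have h := Pool.Agent.D0H48.Cl.clt Pool.Agent.D0H48.Gr.div_mod.1.ctx (by positivity : 0 < δ / 2) ha' hb' hmono'
    Pool.Agent.D0H48.Cl.VV_div_pos ν hν hν1 x
  refine h.congr fun N => ?_
  have hpos : ∀ᵐ α ∂ν, 1 < α := by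
    rw [ae_iff]
    refine measure_mono_null ?_ hν1
    intro y hy
    simpa using hy
  apply measure_congr
  filter_upwards [hpos] with α hα
  have hα0 : 0 < α := by linarith
  have hx : ∀ n : ℕ, 0 < b n * α ^ (a n) := fun n => mul_pos (hb n) (Real.rpow_pos_of_pos hα0 _)
  have hEn : ∀ n : ℕ, Pool.Agent.H383.Div.E2 (2 * √(b n) * α ^ (a n / 2)) =
      Δ (b n * α ^ (a n)) / (b n * α ^ (a n)) ^ (1 / 4 : ℝ) := by
    intro n
    rw [← hE _ (hx n), Real.sqrt_mul (hb n).le]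
    congr 1
    rw [mul_assoc]
    congr 2
    rw [Real.sqrt_eq_rpow, ← Real.rpow_mul hα0.le]
    congr 1
    ring
  apply propext
  change (∑ n ∈ Finset.range N, Pool.Agent.H383.Div.E2 (2 * √(b n) * α ^ (a n / 2)) ≤ x * √(N:ℝ)) ↔
    (∑ n ∈ Finset.range N, Δ (b n * α ^ (a n)) / (b n * α ^ (a n)) ^ (1 / 4 : ℝ) ≤ x * √(N:ℝ))
  rw [Finset.sum_congr rfl fun n _ => hEn n]

end Pool.Agent.Results.MP_bc6037_nt.CentralLimitAlongPowers
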