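import Pool.Agent.D0H48.Gr.Inst

/-!
# The growth of the error term of the divisor problem along almost all geometric progressions

`Δ(x) = ∑_{n ≤ x} d(n) - x (log x + 2 γ - 1)` is the function `Δ_2` of the Piltz divisor problem.  Let `a_n` be real with
`a_{n+1} ≥ a_n + δ`, `δ > 0`, let `b_n > 0` be nondecreasing and `x_n = b_n α ^ (a_n)`, for example `x_n = α ^ n`.  For
almost all `α > 1` the exact order of growth of `Δ(x_n) / x_n ^ (1/4)` is `(log n) ^ (1/4 + o(1))`, for both signs, and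
values of this size are taken at `N ^ (1 - o(1))` of the `n < N`.

The proof is described in the file `Pool.Agent.Results.MP_fb29e9_nt.GrowthAlongPowers`, the same statement for the
circle problem.
-/

set_option autoImplicit false

open MeasureTheory Filter Topology Set

namespace Pool.Agent.Results.MP_bc6037_nt.GrowthAlongPowers

open Classical in
theorem result (Δ : ℝ → ℝ)
    (hΔ : ∀ x : ℝ, Δ x = ∑ n ∈ Finset.Icc 1 ⌊x⌋₊, (n.divisors.card : ℝ) - x * (Real.log x + 2 * Real.eulerMascheroniConstant - 1))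
    (a b : ℕ → ℝ) (δ : ℝ) (hδ : 0 < δ) (ha : ∀ n, a n + δ ≤ a (n + 1)) (hb : ∀ n, 0 < b n) (hmono : Monotone b) :
    ∀ᵐ α : ℝ, 1 < α → ∀ ε : ℝ, 0 < ε →
      (∀ᶠ n : ℕ in atTop, |Δ (b n * α ^ (a n))| ≤ (Real.log n) ^ (1 / 4 + ε) * (b n * α ^ (a n)) ^ (1 / 4 : ℝ)) ∧
      (∀ᶠ N : ℕ in atTop, (N : ℝ) ^ (1 - ε) ≤ (((Finset.range N).filter fun n : ℕ =>
        (Real.log N) ^ (1 / 4 - ε) * (b n * α ^ (a n)) ^ (1 / 4 : ℝ) ≤ Δ (b n * α ^ (a n))).card : ℝ)) ∧
      (∀ᶠ N : ℕ in atTop, (N : ℝ) ^ (1 - ε) ≤ (((Finset.range N).filter fun n : ℕ =>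
        Δ (b n * α ^ (a n)) ≤ -((Real.log N) ^ (1 / 4 - ε) * (b n * α ^ (a n)) ^ (1 / 4 : ℝ))).card : ℝ)) := by
  have hΔD : ∀ x : ℝ, Δ x = Pool.Agent.H387R2.Vor.Del x := by
    intro x
    rw [hΔ]
    unfold Pool.Agent.H387R2.Vor.Del
    rw [show x * (Real.log x + 2 * Real.eulerMascheroniConstant - 1) =
      x * Real.log x + (2 * Real.eulerMascheroniConstant - 1) * x by ring, ← sub_sub]
    rfl
  have hE : ∀ x : ℝ, 0 < x → Pool.Agent.H383.Div.E2 (2 * √x) = Δ x / x ^ (1 / 4 : ℝ) := by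
    intro x hx
    unfold Pool.Agent.H383.Div.E2
    rw [mul_div_cancel_left₀ _ (by norm_num : (2:ℝ) ≠ 0)]
    unfold Pool.Agent.H387R2.Vor.Ed
    rw [Real.sq_sqrt hx.le, hΔD]
    congr 1
    rw [Real.sqrt_eq_rpow, Real.sqrt_eq_rpow, ← Real.rpow_mul hx.le]
    norm_num
  have hb' : ∀ n, 0 < 2 * √(b n) := fun n => mul_pos two_pos (Real.sqrt_pos.2 (hb n))
  have hmono' : Monotone fun n => 2 * √(b n) := fun i j hij =>
    mul_le_mul_of_nonneg_left (Real.sqrt_le_sqrt (hmono hij)) two_pos.le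
  have h1 := Pool.Agent.R373.NFI.ae_sq (Pool.Agent.D0H48.Gr.growth Pool.Agent.D0H48.Gr.div_mod.1 hδ ha hb' hmono')
  have h2 := Pool.Agent.R373.NFI.ae_sq (Pool.Agent.D0H48.Gr.growth Pool.Agent.D0H48.Gr.div_mod.2 hδ ha hb' hmono')
  filter_upwards [h1, h2] with α g1 g2 hα ε hε
  have hα0 : 0 < α := by linarith
  have hs1 : 1 < √α := by
    rw [Real.lt_sqrt (by norm_num)]
    linarith
  have hx : ∀ n : ℕ, 0 < b n * α ^ (a n) := fun n => mul_pos (hb n) (Real.rpow_pos_of_pos hα0 _)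
  have hR : ∀ n : ℕ, 0 < (b n * α ^ (a n)) ^ (1 / 4 : ℝ) := fun n => Real.rpow_pos_of_pos (hx n) _
  have hEn : ∀ n : ℕ, Pool.Agent.H383.Div.E2 (2 * √(b n) * (√α) ^ (a n)) =
      Δ (b n * α ^ (a n)) / (b n * α ^ (a n)) ^ (1 / 4 : ℝ) := by
    intro n
    rw [← hE _ (hx n), Real.sqrt_mul (hb n).le]
    congr 1
    rw [mul_assoc]
    congr 2
    rw [Real.sqrt_eq_rpow, Real.sqrt_eq_rpow, ← Real.rpow_mul hα0.le, ← Real.rpow_mul hα0.le, mul_comm]
  obtain ⟨k1, k2⟩ := g1 hα0 hs1 ε hε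
  obtain ⟨-, k3⟩ := g2 hα0 hs1 ε hε
  simp only [hEn] at k1 k2 k3
  refine ⟨?_, ?_, ?_⟩
  · filter_upwards [k1] with n hn
    rw [abs_div, abs_of_pos (hR n), div_le_iff₀ (hR n)] at hn
    exact hn
  · filter_upwards [k2] with N hN
    refine hN.trans (le_of_eq ?_)
    congr 2
    apply Finset.filter_congr
    intro n _
    rw [le_div_iff₀ (hR n)]
  · filter_upwards [k3] with N hN
    refine hN.trans (le_of_eq ?_)
    congr 2
    apply Finset.filter_congr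
    intro n _
    rw [← neg_div, le_div_iff₀ (hR n)]
    constructor <;> intro h <;> linarith

end Pool.Agent.Results.MP_bc6037_nt.GrowthAlongPowers
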