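import Pool.Agent.D0H48.Pz.Iid

/-!
# The divisor problem along geometric progressions: the error terms behave like independent random variables

`Δ(x) = ∑_{n ≤ x} d(n) - x (log x + 2 γ - 1)` is the function `Δ_2` of the Piltz divisor problem and
`F(x) = Δ(x) / x ^ (1/4)`.

Method.  The truncated Voronoi series at frequencies `√m` replaces that of the circle problem in the arguments of the
starting files `Pool.Agent.R306.GP` (mean square approximation, van der Corput's lemma for the phases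
`b_n exp(a_n y) ω - b_m exp(a_m y) ω'`, Weyl sums with transcendental dilations).
-/

set_option autoImplicit false

open MeasureTheory Filter Topology Set

namespace Pool.Agent.Results.MP_bc6037_nt.IndependenceAlongPowers

open Pool.Agent.H387R2.Vor (Ed Del)

theorem result (Δ : ℝ → ℝ)
    (hΔ : ∀ x : ℝ, Δ x = ∑ n ∈ Finset.Icc 1 ⌊x⌋₊, (n.divisors.card : ℝ) - x * (Real.log x + 2 * Real.eulerMascheroniConstant - 1)) :
    ∃ (ν : ProbabilityMeasure ℝ) (G : ℂ → ℂ),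
      -- the law
      Differentiable ℂ G ∧ (∀ x : ℝ, 0 ≤ (G x).re ∧ (G x).im = 0) ∧
      (ν : Measure ℝ) = volume.withDensity (fun x : ℝ => ENNReal.ofReal (G x).re) ∧
      (∀ u v : ℝ, u < v → 0 < (ν : Measure ℝ) (Ioo u v)) ∧
      ∫ x, x ∂(ν : Measure ℝ) = 0 ∧
      HasSum (fun m : ℕ => (m.divisors.card : ℝ) ^ 2 / (4 * Real.pi ^ 2) * (m : ℝ) ^ (-(3 / 2) : ℝ)) (∫ x, x ^ 2 ∂(ν : Measure ℝ)) ∧
      -- it is the limit law of the normalised error term
      (∀ c₁ c₂ K s : ℝ, 0 < c₁ → 1 / 3 < s →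
        ∀ f : ℝ → ℝ, Continuous f → (∃ C : ℝ, ∀ x, |f x| ≤ C * (1 + x ^ 2)) → ∀ η : ℝ, 0 < η →
        ∃ T₀ : ℝ, ∀ T, T₀ ≤ T → ∀ μ : Measure ℝ, IsProbabilityMeasure μ → (∀ᵐ y ∂μ, c₁ ≤ y ∧ y ≤ c₂) →
          (∀ t : ℝ, T ^ (1 / 20 : ℝ) ≤ |t| → ‖∫ y, Complex.exp (((t * y : ℝ) : ℂ) * Complex.I) ∂μ‖ ≤ K * |t| ^ (-s)) →
          |∫ y, f (Δ ((T * y) ^ 2) / ((T * y) ^ 2) ^ (1 / 4 : ℝ)) ∂μ - ∫ x, f x ∂(ν : Measure ℝ)| ≤ η) ∧
      -- almost all sequences
      ∀ (a b : ℕ → ℝ) (δ : ℝ), 0 < δ → (∀ n, a n + δ ≤ a (n + 1)) → (∀ n, 0 < b n) → Monotone b →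
        ∀ᵐ α : ℝ, 1 < α →
          -- averages of all continuous functions of polynomial growth
          (∀ (k : ℕ) (f : (Fin k → ℝ) → ℝ), Continuous f →
            (∃ (C : ℝ) (p : ℕ), ∀ x, |f x| ≤ C * (1 + ‖x‖ ^ p)) →
            Integrable f (Measure.pi fun _ : Fin k => (ν : Measure ℝ)) ∧
            Tendsto (fun N : ℕ => (∑ n ∈ Finset.range N, f (fun j =>
                Δ (b n * α ^ (a n) * α ^ (j : ℕ)) / (b n * α ^ (a n) * α ^ (j : ℕ)) ^ (1 / 4 : ℝ))) / (N : ℝ)) atTop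
              (𝓝 (∫ x, f x ∂(Measure.pi fun _ : Fin k => (ν : Measure ℝ))))) ∧
          -- joint frequencies
          (∀ (k : ℕ) (u : Fin k → ℝ), Tendsto (fun N : ℕ =>
              (((Finset.range N).filter fun n => ∀ j : Fin k,
                Δ (b n * α ^ (a n) * α ^ (j : ℕ)) ≤ u j * (b n * α ^ (a n) * α ^ (j : ℕ)) ^ (1 / 4 : ℝ)).card : ℝ) / N) atTop
            (𝓝 (∏ j, (ν : Measure ℝ).real (Iic (u j))))) ∧
          -- size
          ∀ ε : ℝ, 0 < ε → ∀ᶠ n : ℕ in atTop,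
            |Δ (b n * α ^ (a n))| ≤ (n : ℝ) ^ ε * (b n * α ^ (a n)) ^ (1 / 4 : ℝ) := by
  classical
  have hΔD : ∀ x : ℝ, Δ x = Del x := by
    intro x
    rw [hΔ]
    unfold Del
    rw [show x * (Real.log x + 2 * Real.eulerMascheroniConstant - 1) =
      x * Real.log x + (2 * Real.eulerMascheroniConstant - 1) * x by ring, ← sub_sub]
    rfl
  have hE : ∀ x : ℝ, 0 < x → Δ x / x ^ (1 / 4 : ℝ) = Ed (√x) := by
    intro x hx
    unfold Ed
    rw [Real.sq_sqrt hx.le, hΔD]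
    congr 1
    rw [Real.sqrt_eq_rpow, Real.sqrt_eq_rpow, ← Real.rpow_mul hx.le]
    norm_num
  obtain ⟨ν, G, h1, h2, h3, h4, h5, h6, h7, h8⟩ := Pool.Agent.D0H48.Pz.div_iid
  have hat : ∀ x : ℝ, (ν : Measure ℝ) {x} = 0 := by
    intro x
    rw [h3]
    exact withDensity_absolutelyContinuous _ _ (measure_singleton x)
  refine ⟨ν, G, h1, h2, h3, h4, h5, h6, ?_, ?_⟩
  · intro c₁ c₂ K s hc₁ hs f hf hC η hη
    obtain ⟨T₀, hT₀⟩ := h7 c₁ c₂ K s hc₁ hs f hf hC η hη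
    refine ⟨max T₀ 1, fun T hT μ hμ hsupp hdec => ?_⟩
    have h9 := hT₀ T (le_trans (le_max_left _ _) hT) μ hμ hsupp hdec
    have hT0 : 0 < T := lt_of_lt_of_le one_pos (le_trans (le_max_right _ _) hT)
    have h10 : ∫ y, f (Δ ((T * y) ^ 2) / ((T * y) ^ 2) ^ (1 / 4 : ℝ)) ∂μ = ∫ y, f (Ed (T * y)) ∂μ := by
      apply integral_congr_ae
      filter_upwards [hsupp] with y hy
      have : 0 < T * y := mul_pos hT0 (by linarith [hy.1])
      rw [hE _ (by positivity), Real.sqrt_sq this.le]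
    rw [h10]
    exact h9
  · intro a b δ hδ hgap hb hmono
    filter_upwards [h8 a b δ hδ hgap hb hmono] with α hα hα1
    have hα0 : 0 < α := by linarith
    have hpos : ∀ (n j : ℕ), 0 < b n * α ^ (a n) * α ^ j := fun n j =>
      mul_pos (mul_pos (hb n) (Real.rpow_pos_of_pos hα0 _)) (pow_pos hα0 _)
    have hα' := hα hα1
    refine ⟨fun k f hf hC => ?_, fun k u => ?_, fun ε hε => ?_⟩
    · refine ⟨(hα' k f hf hC).1, ?_⟩
      refine (hα' k f hf hC).2.congr fun N => ?_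
      congr 1
      refine Finset.sum_congr rfl fun n _ => ?_
      congr 1
      funext j
      rw [hE _ (hpos n j)]
    · have h9 := freq_of_law' hat (fun g hg hgb => by
        obtain ⟨B, hB⟩ := hgb
        exact (hα' k g hg ⟨B, 0, fun x => by
          have h7 := hB x
          have h8 : 0 ≤ B := (abs_nonneg _).trans h7
          simp only [pow_zero]
          linarith⟩).2) u
      refine h9.congr fun N => ?_
      congr 2
      congr 1
      apply Finset.filter_congr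
      intro n _
      refine forall_congr' fun j => ?_
      have hq : 0 < (b n * α ^ (a n) * α ^ (j : ℕ)) ^ (1 / 4 : ℝ) := Real.rpow_pos_of_pos (hpos n j) _
      rw [← hE _ (hpos n j), div_le_iff₀ hq]
    · have h10 : ∀ m : ℕ, ∃ L : ℝ, Tendsto (fun N : ℕ => (∑ n ∈ Finset.range N, |Ed (√(b n * α ^ (a n)))| ^ m) / (N:ℝ))
          atTop (𝓝 L) := by
        intro m
        have h7 := (hα' 1 (fun x => |x 0| ^ m) (by fun_prop) ⟨1, m, fun x => by
          have h8 : |x 0| ^ m ≤ ‖x‖ ^ m := pow_le_pow_left₀ (abs_nonneg _) (norm_le_pi_norm x 0) m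
          rw [abs_of_nonneg (by positivity : 0 ≤ |x 0| ^ m)]
          linarith⟩).2
        refine ⟨_, h7.congr fun N => ?_⟩
        simp
      filter_upwards [Pool.Agent.R306.GP.small_of_mom h10 hε] with n hn
      have hR : 0 < b n * α ^ (a n) := mul_pos (hb n) (Real.rpow_pos_of_pos hα0 _)
      have hs : 0 < (b n * α ^ (a n)) ^ (1 / 4 : ℝ) := Real.rpow_pos_of_pos hR _
      rw [← hE _ hR, abs_div, abs_of_pos hs, div_le_iff₀ hs] at hn
      exact hn
where
  freq_of_law' {k : ℕ} {X : ℕ → Fin k → ℝ} {μ : ProbabilityMeasure ℝ} (hat : ∀ x : ℝ, (μ : Measure ℝ) {x} = 0)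
    (hlaw : ∀ g : (Fin k → ℝ) → ℝ, Continuous g → (∃ B, ∀ x, |g x| ≤ B) →
      Tendsto (fun N : ℕ => (∑ n ∈ Finset.range N, g (X n)) / (N:ℝ)) atTop
        (𝓝 (∫ x, g x ∂(Measure.pi fun _ : Fin k => (μ : Measure ℝ))))) (u : Fin k → ℝ) :
    Tendsto (fun N : ℕ => (((Finset.range N).filter fun n => ∀ j, X n j ≤ u j).card : ℝ) / N) atTop
      (𝓝 (∏ j, (μ : Measure ℝ).real (Iic (u j)))) := Pool.Agent.R306.GP.freq_of_law hat hlaw u

end Pool.Agent.Results.MP_bc6037_nt.IndependenceAlongPowers
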