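import Pool.Agent.D0H48.Pk.Two

/-!
# The Piltz divisor problem along `b_n α ^ (a_n)`, for every `k`: measure, dimension and category

Let `Δ(x) = ∑_{n ≤ x} d_k(n) - x P(log x)` and let `x_n(α) = b_n α ^ (a_n)`, where `a_n ≥ 1`, `b_n > 0`,
`a_{n+1} / a_n → 1`, `(log b_{n+1} - log b_n) / a_n → 0` and `x_n(α) → ∞` for all `α > α₀` (for example `α ^ n` with
`α₀ = 1`, or `α ^ (√n)`, or `α exp(√n)` with `α₀ = 0`).

Method.  A large value of `Δ` persists on an interval of length `x ^ (θ - η)` on one side, so that the mean square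
bounds the number of the cells `m ≤ x ^ κ < m + 1`, `κ = 1 - θ + η`, which contain a value `> x ^ θ`; their preimages
under `x_n` cover the exceptional parameters.  For the generic parameters Baire's theorem is used: every open set of
parameters is mapped by some `x_n` onto a set which contains a given large `x`.  For `k = 2` the mean square comes
from the limit law of the starting file `Pool.Agent.R461.GC.G8`.
-/

set_option autoImplicit false

open MeasureTheory Filter Topology Set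

namespace Pool.Agent.Results.MP_bc6037_nt.MeasureAndCategory

/-- `Δ(x)` for the main term `x P(log x)` -/
noncomputable def Δ (k : ℕ) (P : Polynomial ℝ) (x : ℝ) : ℝ :=
  (∑ n ∈ Finset.Icc 1 ⌊x⌋₊, (((ArithmeticFunction.zeta ^ k : ArithmeticFunction ℕ) n : ℕ) : ℝ)) - x * P.eval (Real.log x)

/-- `β_k ≤ β` -/
def MeanSquare (k : ℕ) (P : Polynomial ℝ) (β : ℝ) : Prop :=
  ∀ β' : ℝ, β < β' → ∃ C : ℝ, ∀ x : ℝ, 1 ≤ x → (∫ y in (1 : ℝ)..x, (Δ k P y) ^ 2) ≤ C * x ^ (1 + 2 * β')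

theorem result (k : ℕ) (P : Polynomial ℝ) :
    -- the mean square for `k = 2`
    (k = 2 → P = Polynomial.X + Polynomial.C (2 * Real.eulerMascheroniConstant - 1) → MeanSquare k P (1 / 4)) ∧
    ∀ (a b : ℕ → ℝ) (α₀ : ℝ), 0 ≤ α₀ → (∀ n, 1 ≤ a n) → (∀ n, 0 < b n) →
      Tendsto (fun n => a (n + 1) / a n) atTop (𝓝 1) →
      Tendsto (fun n => (Real.log (b (n + 1)) - Real.log (b n)) / a n) atTop (𝓝 0) →
      (∀ α : ℝ, α₀ < α → Tendsto (fun n => b n * α ^ (a n)) atTop atTop) →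
      -- all parameters outside a meagre set see the exponent of `Δ`
      (∀ᶠ α in residual ℝ, α₀ < α → ∀ θ : ℝ,
        ((∃ C : ℝ, ∀ᶠ n in atTop, |Δ k P (b n * α ^ (a n))| ≤ C * (b n * α ^ (a n)) ^ θ) ↔
          ∃ C : ℝ, ∀ x : ℝ, 1 ≤ x → |Δ k P x| ≤ C * x ^ θ)) ∧
      -- and the large values of both signs
      (∀ φ : ℝ → ℝ, ContinuousOn φ (Ioi 0) →
        ((∃ᶠ x in atTop, φ x < Δ k P x) →
          ∀ᶠ α in residual ℝ, α₀ < α → ∃ᶠ n in atTop, φ (b n * α ^ (a n)) < Δ k P (b n * α ^ (a n))) ∧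
        ((∃ᶠ x in atTop, Δ k P x < φ x) →
          ∀ᶠ α in residual ℝ, α₀ < α → ∃ᶠ n in atTop, Δ k P (b n * α ^ (a n)) < φ (b n * α ^ (a n)))) ∧
      -- the criterion
      (∀ c : ℝ, (∀ θ : ℝ, c < θ → ∃ C : ℝ, ∀ x : ℝ, 1 ≤ x → |Δ k P x| ≤ C * x ^ θ) ↔
        ¬ IsMeagre {α : ℝ | α₀ < α ∧ ∀ θ : ℝ, c < θ → ∀ᶠ n in atTop, |Δ k P (b n * α ^ (a n))| ≤ (b n * α ^ (a n)) ^ θ}) ∧
      -- almost all parameters, dimension
      ((∀ α : ℝ, α₀ < α → Tendsto (fun n : ℕ => Real.log (b n * α ^ (a n)) / Real.log n) atTop atTop) →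
        ∀ β : ℝ, 0 ≤ β → β < 1 → MeanSquare k P β →
          (∀ᵐ α : ℝ, α₀ < α → ∀ θ : ℝ, β < θ → ∀ᶠ n in atTop, |Δ k P (b n * α ^ (a n))| ≤ (b n * α ^ (a n)) ^ θ) ∧
          ∀ θ : ℝ, β < θ → θ < 1 →
            dimH {α : ℝ | α₀ < α ∧ ∃ᶠ n in atTop, (b n * α ^ (a n)) ^ θ < |Δ k P (b n * α ^ (a n))|} ≤
              ENNReal.ofReal (1 - 2 * (θ - β) / (1 - θ))) := by
  classical
  refine ⟨?_, ?_⟩
  · rintro rfl rfl β' hβ'
    obtain ⟨C, hC⟩ := Pool.Agent.D0H48.Pk.ms_two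
    refine ⟨|C|, fun x hx => (hC x hx).trans ?_⟩
    have h1 : 0 ≤ x ^ (1 + 2 * (1 / 4 : ℝ)) := by positivity
    calc C * x ^ (1 + 2 * (1 / 4 : ℝ)) ≤ |C| * x ^ (1 + 2 * (1 / 4 : ℝ)) := mul_le_mul_of_nonneg_right (le_abs_self _) h1
      _ ≤ |C| * x ^ (1 + 2 * β') :=
        mul_le_mul_of_nonneg_left (Real.rpow_le_rpow_of_exponent_le hx (by linarith)) (abs_nonneg _)
  · intro a b α₀ h0 ha hb har hbr hinf
    have ha0 : ∀ n, 0 < a n := fun n => by linarith [ha n]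
    have hexp := Pool.Agent.D0H48.Pk.exp_pk k P h0 ha0 hb har hbr hinf
    refine ⟨hexp, fun φ hφ => ?_, fun c => ?_, fun hgr β hβ hβ1 hms => ?_⟩
    · have h := Pool.Agent.D0H48.Pk.cat_pk k P h0 ha0 hb har hbr hinf hφ
      exact ⟨h.1, h.2.1⟩
    · constructor
      · intro h hm
        have e : {α : ℝ | α₀ < α ∧ ∀ θ : ℝ, c < θ → ∀ᶠ n in atTop, |Δ k P (b n * α ^ (a n))| ≤ (b n * α ^ (a n)) ^ θ} = Ioi α₀ := by
          ext α
          constructor
          · exact fun hα => hα.1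
          · intro hα
            refine ⟨hα, fun θ hθ => ?_⟩
            obtain ⟨θ', h1, h2⟩ := exists_between hθ
            obtain ⟨C, hC⟩ := h θ' h1
            have h3 : Tendsto (fun x : ℝ => x ^ (θ - θ')) atTop atTop := tendsto_rpow_atTop (by linarith)
            filter_upwards [(hinf α hα).eventually_ge_atTop 1, (h3.comp (hinf α hα)).eventually_ge_atTop C] with n hn hn2
            have hpos : 0 < b n * α ^ (a n) := by linarith
            calc |Δ k P (b n * α ^ (a n))| ≤ C * (b n * α ^ (a n)) ^ θ' := hC _ hn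
              _ ≤ (b n * α ^ (a n)) ^ (θ - θ') * (b n * α ^ (a n)) ^ θ' := mul_le_mul_of_nonneg_right hn2 (by positivity)
              _ = (b n * α ^ (a n)) ^ θ := by rw [← Real.rpow_add hpos]; congr 1; ring
        rw [e] at hm
        have h1 : (Ioi α₀)ᶜ ∈ residual ℝ := hm
        have h2 : Dense (Ioi α₀)ᶜ := dense_of_mem_residual h1
        obtain ⟨x, hx1, hx2⟩ := h2.inter_open_nonempty (Ioi α₀) isOpen_Ioi ⟨α₀ + 1, by simp⟩
        exact hx2 hx1
      · intro h θ hθ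
        by_contra hcon
        apply h
        change _ ∈ residual ℝ
        filter_upwards [hexp] with α hα hα2
        apply hcon
        refine (hα hα2.1 θ).1 ⟨1, ?_⟩
        filter_upwards [hα2.2 θ hθ] with n hn
        rw [one_mul]
        exact hn
    · have hmid : ∀ β' : ℝ, β < β' → ∃ C : ℝ, ∀ x : ℝ, 1 ≤ x →
          ∫ y in (1:ℝ)..x, (Pool.Agent.D0H48.Pk.Dk k y - Pool.Agent.D0H48.Pk.Mt P y) ^ 2 ≤ C * x ^ (1 + 2 * β') := hms
      constructor
      · have key : ∀ q : ℚ, ∀ᵐ α : ℝ, α₀ < α → β < q → (q : ℝ) < 1 → ∀ θ : ℝ, (q:ℝ) < θ → ∀ᶠ n in atTop,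
            |Δ k P (b n * α ^ (a n))| ≤ (b n * α ^ (a n)) ^ θ := by
          intro q
          by_cases hq : β < q ∧ (q : ℝ) < 1
          · obtain ⟨C, hC⟩ := hmid q hq.1
            filter_upwards [Pool.Agent.D0H48.Pk.ae_pk k P (by linarith [hq.1]) hq.2 hC h0 ha hb hinf hgr] with α h1 h2 _ _
            exact h1 h2
          · exact Eventually.of_forall fun α _ h1 h2 => absurd ⟨h1, h2⟩ hq
        have key2 := ae_all_iff.2 key
        filter_upwards [key2] with α hα hα0 θ hθ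
        obtain ⟨q, hq1, hq2⟩ := exists_rat_btwn (lt_min hθ hβ1)
        exact hα q hα0 hq1 (hq2.trans_le (min_le_right _ _)) θ (hq2.trans_le (min_le_left _ _))
      · intro θ hθ hθ1
        have h1 : ∀ᶠ β' in 𝓝[>] β, dimH {α : ℝ | α₀ < α ∧ ∃ᶠ n in atTop, (b n * α ^ (a n)) ^ θ < |Δ k P (b n * α ^ (a n))|} ≤
              ENNReal.ofReal (1 - 2 * (θ - β') / (1 - θ)) := by
          filter_upwards [Ioo_mem_nhdsGT hθ] with β' hβ'
          obtain ⟨C, hC⟩ := hmid β' hβ'.1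
          exact Pool.Agent.D0H48.Pk.dim_pk k P (by linarith [hβ'.1]) hC h0 ha hb hgr hβ'.2 hθ1
        have h2 : Tendsto (fun β' : ℝ => ENNReal.ofReal (1 - 2 * (θ - β') / (1 - θ))) (𝓝[>] β)
            (𝓝 (ENNReal.ofReal (1 - 2 * (θ - β) / (1 - θ)))) := by
          have h3 : Continuous fun β' : ℝ => ENNReal.ofReal (1 - 2 * (θ - β') / (1 - θ)) :=
            ENNReal.continuous_ofReal.comp (by fun_prop)
          exact (h3.tendsto β).mono_left nhdsWithin_le_nhds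
        exact ge_of_tendsto h2 h1

end Pool.Agent.Results.MP_bc6037_nt.MeasureAndCategory
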